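import Pool.Agent.Work.MP_db9399_da_helper82.Perm
import Pool.Agent.Work.MP_db9399_dp_helper82.Mid

/-! # DENSE-ALL phase 2: shifts inside all atoms, first moment (helper82) -/

set_option autoImplicit false

namespace Pool.Agent.Work.MP_db9399_da.helper82

open Finset Classical
open Pool.Agent.Work.MP_db9399_da
open Pool.Agent.Work.MP_db9399_dp.helper82 (Gr gpn pal mem_pal gpn_QF gpn_QT gpn_P2 gpn_A0 gpn_A1
  gpn_A2 Num pal_ge)

universe u

section atoms
variable {A : Pal} {d : ℕ} {π κ e : ℝ}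

theorem gpn_C0 (h : PalP A d π κ) (b : ℕ) : b ∈ A.C 0 ↔ gpn A b = .QF ∨ gpn A b = .A0 := by
  rw [gpn_QF, gpn_A0 h, mem_sdiff]
  constructor
  · intro hb
    by_cases hq : b ∈ A.Q false
    · exact Or.inl hq
    · exact Or.inr ⟨hb, hq⟩
  · rintro (hb | hb)
    · exact h.Q0 hb
    · exact hb.1

theorem gpn_C1 (h : PalP A d π κ) (b : ℕ) : b ∈ A.C 1 ↔ gpn A b = .QT ∨ gpn A b = .A1 := by
  rw [gpn_QT h, gpn_A1 h, mem_sdiff]
  constructor
  · intro hb
    by_cases hq : b ∈ A.Q true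
    · exact Or.inl hq
    · exact Or.inr ⟨hb, hq⟩
  · rintro (hb | hb)
    · exact h.Q1 hb
    · exact hb.1

theorem gpn_C2 (h : PalP A d π κ) (b : ℕ) : b ∈ A.C 2 ↔ gpn A b = .P2 ∨ gpn A b = .A2 := by
  rw [gpn_P2 h, gpn_A2 h, mem_sdiff]
  constructor
  · intro hb
    by_cases hq : b ∈ A.P2
    · exact Or.inl hq
    · exact Or.inr ⟨hb, hq⟩
  · rintro (hb | hb)
    · exact h.P2C hb
    · exact hb.1

/-- a permutation which preserves the groups preserves the palettes -/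
theorem palI_of_gpn (h : PalP A d π κ) (σ : Equiv.Perm ℕ) (h1 : ∀ b, σ b < d + 2 ↔ b < d + 2)
    (h2 : ∀ b, gpn A (σ b) = gpn A b) : PalI A d σ := by
  refine ⟨h1, ?_, ?_, ?_⟩
  · intro i b
    have hi : i = 0 ∨ i = 1 ∨ i = 2 := by fin_cases i <;> simp
    rcases hi with rfl | rfl | rfl
    · rw [gpn_C0 h, gpn_C0 h, h2]
    · rw [gpn_C1 h, gpn_C1 h, h2]
    · rw [gpn_C2 h, gpn_C2 h, h2]
  · intro i b
    cases i
    · rw [← gpn_QF (A := A), ← gpn_QF (A := A), h2]
    · rw [← gpn_QT h, ← gpn_QT h, h2]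
  · intro b
    rw [← gpn_P2 h, ← gpn_P2 h, h2]

/-- first moment over the shifts inside all atoms -/
theorem multi_shift (hA : PalP A d π κ) (hn : Num e π κ d) (w : ℕ → ℕ → ℝ)
    (hw : ∀ a b, 0 ≤ w a b) :
    ∃ σ : Equiv.Perm ℕ, PalI A d σ ∧
      e * d * ∑ a ∈ range (d + 2), w a (σ a) ≤
        ∑ a ∈ range (d + 2), ∑ b ∈ range (d + 2), w a b := by
  have hed : 0 < e * d := mul_pos hn.e0 (lt_of_lt_of_le (by norm_num) hn.d1)
  have hex : ∀ g : Gr, ∃ σ : Equiv.Perm ℕ, (∀ a, σ a ∈ pal A d g ↔ a ∈ pal A d g) ∧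
      ((pal A d g).card : ℝ) * ∑ a ∈ pal A d g, w a (σ a) ≤
        ∑ a ∈ pal A d g, ∑ b ∈ pal A d g, w a b := by
    intro g
    have hne : (pal A d g).Nonempty := by
      rw [← card_pos]
      have := lt_of_lt_of_le hed (pal_ge hA hn g)
      exact_mod_cast this
    obtain ⟨σ, _, h2, h3⟩ := shift_exists (pal A d g) hne w
    exact ⟨σ, h2, h3⟩
  choose s hs1 hs2 using hex
  have hs3 : ∀ g a, (s g).symm a ∈ pal A d g ↔ a ∈ pal A d g := by
    intro g a
    rw [← hs1 g ((s g).symm a), Equiv.apply_symm_apply]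
  have k1 : ∀ a, a < d + 2 → s (gpn A a) a < d + 2 ∧ gpn A (s (gpn A a) a) = gpn A a := by
    intro a ha
    exact mem_pal.1 ((hs1 _ _).2 (mem_pal.2 ⟨ha, rfl⟩))
  have k2 : ∀ a, a < d + 2 → (s (gpn A a)).symm a < d + 2 ∧
      gpn A ((s (gpn A a)).symm a) = gpn A a := by
    intro a ha
    exact mem_pal.1 ((hs3 _ _).2 (mem_pal.2 ⟨ha, rfl⟩))
  set σ : Equiv.Perm ℕ :=
    { toFun := fun a => if a < d + 2 then s (gpn A a) a else a
      invFun := fun a => if a < d + 2 then (s (gpn A a)).symm a else a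
      left_inv := by
        intro a
        by_cases ha : a < d + 2
        · simp only [if_pos ha]
          rw [if_pos (k1 a ha).1, (k1 a ha).2, Equiv.symm_apply_apply]
        · simp only [if_neg ha]
      right_inv := by
        intro a
        by_cases ha : a < d + 2
        · simp only [if_pos ha]
          rw [if_pos (k2 a ha).1, (k2 a ha).2, Equiv.apply_symm_apply]
        · simp only [if_neg ha] } with hσ
  have e1 : ∀ a, a < d + 2 → σ a = s (gpn A a) a := by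
    intro a ha
    show (if a < d + 2 then s (gpn A a) a else a) = _
    rw [if_pos ha]
  have e2 : ∀ a, ¬ a < d + 2 → σ a = a := by
    intro a ha
    show (if a < d + 2 then s (gpn A a) a else a) = _
    rw [if_neg ha]
  refine ⟨σ, palI_of_gpn hA σ ?_ ?_, ?_⟩
  · intro b
    by_cases hb : b < d + 2
    · rw [e1 b hb]
      exact ⟨fun _ => hb, fun _ => (k1 b hb).1⟩
    · rw [e2 b hb]
  · intro b
    by_cases hb : b < d + 2
    · rw [e1 b hb]; exact (k1 b hb).2
    · rw [e2 b hb]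
  · have h1 : ∀ f : ℕ → ℝ, ∑ a ∈ range (d + 2), f a = ∑ g : Gr, ∑ a ∈ pal A d g, f a := by
      intro f
      rw [← sum_fiberwise_of_maps_to (g := gpn A) (t := univ) (fun _ _ => mem_univ _)]
      apply sum_congr rfl
      intro g _
      apply sum_congr _ (fun _ _ => rfl)
      ext a
      rw [mem_pal, mem_filter, mem_range]
    rw [h1, h1, mul_sum]
    apply sum_le_sum
    intro g _
    have h2 : ∑ a ∈ pal A d g, w a (σ a) = ∑ a ∈ pal A d g, w a (s g a) := by
      apply sum_congr rfl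
      intro a ha
      have h3 := mem_pal.1 ha
      rw [e1 a h3.1, h3.2]
    rw [h2]
    have h4 : 0 ≤ ∑ a ∈ pal A d g, w a (s g a) := sum_nonneg (fun a _ => hw _ _)
    have h5 := mul_le_mul_of_nonneg_right (pal_ge hA hn g) h4
    refine h5.trans ((hs2 g).trans ?_)
    apply sum_le_sum
    intro a _
    apply sum_le_sum_of_subset_of_nonneg
    · intro b hb
      exact mem_range.2 (mem_pal.1 hb).1
    · intro b _ _
      exact hw _ _

end atoms

/-! ## Families of events -/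

section fam
variable {ι : Type*}

/-- weights of the events `σ (α p) ∈ B p`, `p ∈ I` -/
noncomputable def wf (I : Finset ι) (α : ι → ℕ) (B : ι → Finset ℕ) (a b : ℕ) : ℝ :=
  ∑ p ∈ I, if α p = a ∧ b ∈ B p then (1 : ℝ) else 0

theorem wf_nonneg (I : Finset ι) (α : ι → ℕ) (B : ι → Finset ℕ) (a b : ℕ) : 0 ≤ wf I α B a b := by
  unfold wf
  apply sum_nonneg
  intro p _
  split_ifs <;> norm_num

theorem wf_sum (I : Finset ι) (α : ι → ℕ) (B : ι → Finset ℕ) (R : Finset ℕ) :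
    ∑ a ∈ R, ∑ b ∈ R, wf I α B a b ≤ ∑ p ∈ I, ((B p).card : ℝ) := by
  have h1 : ∑ a ∈ R, ∑ b ∈ R, wf I α B a b =
      ∑ p ∈ I, ∑ a ∈ R, ∑ b ∈ R, if α p = a ∧ b ∈ B p then (1 : ℝ) else 0 := by
    unfold wf
    rw [sum_comm]
    rw [sum_congr rfl (fun a _ => sum_comm)]
    rw [sum_comm]
    apply sum_congr rfl
    intro p _
    rw [sum_comm]
  rw [h1]
  apply sum_le_sum
  intro p _
  have h2 : ∀ a ∈ R, (∑ b ∈ R, if α p = a ∧ b ∈ B p then (1 : ℝ) else 0) =
      if α p = a then ((R ∩ B p).card : ℝ) else 0 := by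
    intro a _
    by_cases ha : α p = a
    · simp only [ha, true_and, if_true]
      rw [← sum_filter, sum_const, nsmul_eq_mul, mul_one]
      congr 2
    · simp only [ha, false_and, if_false, sum_const_zero]
  rw [sum_congr rfl h2]
  rw [sum_ite_eq]
  split_ifs
  · exact_mod_cast card_le_card inter_subset_right
  · exact Nat.cast_nonneg _

theorem wf_at (I : Finset ι) (α : ι → ℕ) (B : ι → Finset ℕ) (R : Finset ℕ) (σ : ℕ → ℕ) :
    ((I.filter (fun p => α p ∈ R ∧ σ (α p) ∈ B p)).card : ℝ) ≤ ∑ a ∈ R, wf I α B a (σ a) := by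
  have h1 : ∑ a ∈ R, wf I α B a (σ a) =
      ∑ p ∈ I, ∑ a ∈ R, if α p = a ∧ σ a ∈ B p then (1 : ℝ) else 0 := by
    unfold wf
    rw [sum_comm]
  rw [h1, card_eq_sum_ones, sum_filter]
  push_cast
  apply sum_le_sum
  intro p _
  split_ifs with h2
  · refine le_trans (le_of_eq ?_) (single_le_sum (f := fun a => if α p = a ∧ σ a ∈ B p then
      (1 : ℝ) else 0) (fun a _ => by split_ifs <;> norm_num) h2.1)
    simp only [true_and]
    rw [if_pos h2.2]
  · apply sum_nonneg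
    intro a _
    split_ifs <;> norm_num

/-- no event -/
theorem wf_none (I : Finset ι) (α : ι → ℕ) (B : ι → Finset ℕ) (R : Finset ℕ) (σ : ℕ → ℕ)
    (h : ∑ a ∈ R, wf I α B a (σ a) < 1) (p : ι) (hp : p ∈ I) (hR : α p ∈ R) :
    σ (α p) ∉ B p := by
  intro hB
  have h1 := wf_at I α B R σ
  have h2 : 1 ≤ (I.filter (fun p => α p ∈ R ∧ σ (α p) ∈ B p)).card :=
    card_pos.2 ⟨p, by rw [mem_filter]; exact ⟨hp, hR, hB⟩⟩
  have h3 : (1 : ℝ) ≤ ((I.filter (fun p => α p ∈ R ∧ σ (α p) ∈ B p)).card : ℝ) := by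
    exact_mod_cast h2
  linarith

end fam

end Pool.Agent.Work.MP_db9399_da.helper82
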