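import Pool.Agent.Work.MP_db9399_da.Pre2
import Pool.Agent.Work.MP_db9399_da_helper82.Shift

/-! # DENSE-ALL phase 2, block SHF: shift of the colours (helper82) -/

set_option autoImplicit false

namespace Pool.Agent.Work.MP_db9399_da.helper82

open Finset Classical
open Pool.Agent.Work.MP_db9399_all (nb)
open Pool.Agent.Work.MP_db9399_lt (us)
open Pool.Agent.Work.MP_db9399_da
open Pool.Agent.Work.MP_db9399_dp.helper82 (Num nb_thin_V0)

universe u

theorem dcount {α : Type*} (R : Finset ℕ) (S : Finset α) (N : α → Finset ℕ) :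
    ∑ b ∈ R, (S.filter (fun v => b ∈ N v)).card ≤ ∑ v ∈ S, (N v).card := by
  simp only [card_eq_sum_ones, sum_filter]
  rw [sum_comm]
  apply sum_le_sum
  intro v _
  rw [← sum_filter, ← card_eq_sum_ones, ← card_eq_sum_ones]
  apply card_le_card
  intro b hb
  exact (mem_filter.1 hb).2

theorem fib {V : Type u} (S : Finset V) (I : Finset (V × V)) (m : ℕ) (hI : ∀ p ∈ I, p.1 ∈ S)
    (hm : ∀ z ∈ S, ∀ T : Finset V, (∀ w ∈ T, (z, w) ∈ I) → T.card ≤ m) :
    I.card ≤ S.card * m := by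
  rw [mul_comm]
  apply card_le_mul_card_image_of_maps_to (f := Prod.fst) hI
  intro z hz
  have h1 : (I.filter (fun p => p.1 = z)).card =
      ((I.filter (fun p => p.1 = z)).image Prod.snd).card := by
    rw [card_image_of_injOn]
    intro p hp q hq he
    rw [mem_coe, mem_filter] at hp hq
    exact Prod.ext (hp.2.trans hq.2.symm) he
  rw [h1]
  apply hm z hz
  intro w hw
  rw [mem_image] at hw
  obtain ⟨p, hp, rfl⟩ := hw
  rw [mem_filter] at hp
  have : (z, p.2) = p := by rw [← hp.2]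
  rw [this]; exact hp.1

section shf
variable {V : Type u} [Fintype V] {M : ℕ}

theorem ZT_perm (τ : ℝ) (G : SimpleGraph V) (d : ℕ) (P : Pcs V M) (A : Pal) (t : V → V → ℕ)
    (σ : Equiv.Perm ℕ) (hσ : PalI A d σ) (n : Fin M)
    (h : ZT τ G d P A (fun v w => σ (t v w)) n) : ZT τ G d P A t n := by
  refine ⟨h.1, le_trans ?_ h.2⟩
  refine Nat.cast_le.2 ?_
  rw [← card_image_of_injective _ σ.injective]
  apply card_le_card
  intro b hb
  rw [mem_image] at hb
  obtain ⟨a, ha, rfl⟩ := hb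
  rw [mem_filter] at ha ⊢
  refine ⟨?_, ?_⟩
  · have h1 := ha.1
    unfold P1 at h1 ⊢
    simp only [mem_sdiff, mem_union, mem_range, hσ.lt, hσ.Q, hσ.P2] at h1 ⊢
    exact h1
  · rw [sg_perm]; exact ha.2

theorem stmt_SHF : Stmt_SHF.{u} := by
  intro C g ρ π κ M k k2 hC hπ hπ1 hκ hκ1
  set e : ℝ := min (min κ (π / 3)) (8 / 10 ^ 13) with he
  have he0 : 0 < e := by rw [he]; positivity
  have heκ : e ≤ κ := (min_le_left _ _).trans (min_le_left _ _)
  have heπ : e ≤ π / 3 := (min_le_left _ _).trans (min_le_right _ _)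
  have hec : e ≤ 8 / 10 ^ 13 := min_le_right _ _
  have hM0 : (0 : ℝ) ≤ M := Nat.cast_nonneg M
  have hk0 : (0 : ℝ) ≤ k := Nat.cast_nonneg k
  have hk20 : (0 : ℝ) ≤ k2 := Nat.cast_nonneg k2
  set K5 : ℕ := ⌈32 * ((k : ℝ) + 1) / e⌉₊ with hK5
  refine ⟨e / (16 * ((M + 1) * (k2 + 1))), K5, by positivity, ?_⟩
  intro τ hτ hτle
  rw [le_div_iff₀ (by positivity)] at hτle
  refine ⟨e / (16 * ((k + 1) * (k2 + 1))), by positivity, ?_⟩
  intro ζ hζ hζle
  rw [le_div_iff₀ (by positivity)] at hζle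
  set h0 : ℝ := 16 * (2 * C + k ^ 2) / ζ with hh0
  have hh00 : 0 < h0 := by rw [hh0]; positivity
  refine ⟨e / (16 * (4 * ((k + 1) * (k2 + 1)) + h0)), by positivity, ?_⟩
  intro θ hθ hθle
  rw [le_div_iff₀ (by positivity)] at hθle
  set D : ℝ := 100000000000000 + 3 / π + 32000 * k / e with hD
  refine ⟨⌈D⌉₊, ?_⟩
  intro V _ G d P A X Ss ε t c Sp hd hDP hA hHP hSup hSC hSk hP hE0
  have hdD : D ≤ d := (Nat.le_ceil D).trans (by exact_mod_cast hd)
  have p1 : 0 < 3 / π := by positivity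
  have p2 : 0 ≤ 32000 * (k : ℝ) / e := by positivity
  have d1 : (100000000000000 : ℝ) ≤ d := by linarith
  have hd0 : (0 : ℝ) < d := by linarith
  have hd1 : 1 ≤ d := by
    have : (1 : ℝ) ≤ d := by linarith
    exact_mod_cast this
  have d2 : 3 ≤ π * d := by
    have : 3 / π ≤ d := by linarith
    rw [div_le_iff₀ hπ] at this; linarith
  have d3 : 32000 * (k : ℝ) ≤ e * d := by
    have : 32000 * (k : ℝ) / e ≤ d := by linarith
    rw [div_le_iff₀ he0] at this; linarith
  have hn : Num e π κ d := ⟨he0, heκ, heπ, hec, hκ1, hπ1, d1, d2⟩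
  have hSpR : ∀ a ∈ Sp, a < d + 2 := by
    intro a ha
    have := hP.SC ha
    unfold Pal.C0 at this
    exact mem_range.1 (mem_sdiff.1 this).1
  have hSp : (Sp.card : ℝ) ≤ θ * d := by
    refine le_trans ?_ hDP.V0c
    rw [hP.own]
    exact_mod_cast card_image_le
  have hcR : ∀ z ∈ P.V0, c z < d + 2 := by
    intro z hz
    apply hSpR
    rw [hP.own]
    exact mem_image_of_mem c hz
  have hS0 : ∀ z ∈ X.S0, z ∈ P.V0 := fun z hz => (hSup z hz).1
  have hthV : ∀ z ∈ P.V0, ∀ w, G.Adj z w → (thin G P).Adj z w := by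
    intro z hz w hw
    refine ⟨hw, ?_⟩
    intro hb
    exact hb.2.1 hz
  have htR : ∀ z ∈ P.V0, ∀ w, G.Adj z w → t z w < d + 2 :=
    fun z hz w hw => hP.lt z w (hthV z hz w hw)
  have htk : ∀ a b : ℝ, 0 ≤ a → a ≤ b → a * (θ * d) ≤ b * (θ * d) := by
    intro a b _ hab
    exact mul_le_mul_of_nonneg_right hab (by positivity)
  have hQ : (4 * (((k : ℝ) + 1) * (k2 + 1)) + h0) * (θ * d) ≤ e * d / 16 := by
    have := mul_le_mul_of_nonneg_right hθle hd0.le
    linarith
  have hkk : (0 : ℝ) ≤ k * k2 := by positivity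
  -- heavy colours
  set Hv : Finset ℕ := (range (d + 2)).filter (fun b =>
    ζ / 16 * d < ((univ.filter (fun v => b ∈ X.nm v)).card : ℝ)) with hHv
  have hHvc : (Hv.card : ℝ) ≤ h0 := by
    have h1 : (Hv.card : ℝ) * (ζ / 16 * d) ≤
        ∑ b ∈ Hv, ((univ.filter (fun v => b ∈ X.nm v)).card : ℝ) := by
      rw [← nsmul_eq_mul, ← sum_const]
      apply sum_le_sum
      intro b hb
      rw [hHv, mem_filter] at hb
      exact hb.2.le
    have h2 : ∑ b ∈ Hv, (univ.filter (fun v => b ∈ X.nm v)).card ≤ ∑ v, (X.nm v).card :=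
      dcount Hv univ X.nm
    have h3 : ∑ v, (X.nm v).card ≤ 2 * Fintype.card V + k * k := by
      have h4 : ∀ v ∈ (univ : Finset V), (X.nm v).card ≤
          2 + if 2 < (X.nm v).card then k else 0 := by
        intro v _
        split_ifs
        · have := hHP.nmk v; omega
        · omega
      refine (sum_le_sum h4).trans ?_
      rw [sum_add_distrib, sum_const, card_univ, smul_eq_mul, ← sum_filter, sum_const,
        smul_eq_mul]
      have := Nat.mul_le_mul_right k hHP.nm2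
      rw [mul_comm (Fintype.card V) 2]
      omega
    have h5 : (∑ b ∈ Hv, ((univ.filter (fun v => b ∈ X.nm v)).card : ℝ)) ≤
        2 * (Fintype.card V : ℝ) + k * k := by exact_mod_cast h2.trans h3
    have h6 := hDP.siz
    have h7 : (Hv.card : ℝ) * (ζ / 16 * d) ≤ (2 * C + k ^ 2) * d := by
      have : (k : ℝ) * k ≤ k ^ 2 * d := by
        have h8 : (0 : ℝ) ≤ k ^ 2 := by positivity
        nlinarith
      linarith
    rw [hh0, le_div_iff₀ hζ]
    have h9 : (Hv.card : ℝ) * ζ * d ≤ 16 * (2 * C + k ^ 2) * d := by linarith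
    exact le_of_mul_le_mul_right h9 hd0
  set Hz : V → Finset ℕ := fun z => (range (d + 2)).filter (fun b =>
    d < 1000 * ((nb G z).filter (fun x => b ∈ X.ne z x)).card) with hHz
  have hHzc : ∀ z ∈ X.S0, (Hz z).card ≤ 2000 := by
    intro z hz
    have h1 : (Hz z).card * d ≤
        ∑ b ∈ Hz z, 1000 * ((nb G z).filter (fun x => b ∈ X.ne z x)).card := by
      rw [← smul_eq_mul, ← sum_const]
      apply sum_le_sum
      intro b hb
      simp only [hHz, mem_filter] at hb
      exact hb.2.le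
    rw [← mul_sum] at h1
    have h2 := dcount (Hz z) (nb G z) (X.ne z)
    have h3 : ∑ x ∈ nb G z, (X.ne z x).card ≤ d * 2 := by
      rw [← hDP.reg z, ← smul_eq_mul, ← sum_const]
      exact sum_le_sum (fun x _ => (hHP.ne2 z hz x).2)
    have h4 : (Hz z).card * d ≤ 2000 * d := by omega
    exact Nat.le_of_mul_le_mul_right h4 hd1
  -- the families
  set I2 : Finset (Fin M × ℕ) := univ ×ˢ P1 d A.Q A.P2 with hI2
  set B2 : Fin M × ℕ → Finset ℕ := fun p =>
    if ZT τ G d P A t p.1 ∧ sg (Fn G P t p.1) (sdn P p.1) p.2 ≠ 0 then Ss else ∅ with hB2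
  set I5 : Finset (V × V) := (X.S0 ×ˢ (univ : Finset V)).filter
    (fun p => G.Adj p.1 p.2 ∧ (p.2 ∈ P.V0 ∨ t p.1 p.2 ∈ Sp)) with hI5
  set I6 : Finset (V × V) := ((X.VH \ P.V0) ×ˢ (univ : Finset V)).filter
    (fun p => (thin G P).Adj p.1 p.2) with hI6
  set I7 : Finset (V × V) := ((W0 X ∩ P.V0) ×ˢ P.V0).filter
    (fun p => G.Adj p.1 p.2) with hI7
  set I8 : Finset (V × V) := (X.S0 ×ˢ (univ : Finset V)).filter
    (fun p => X.H.Adj p.1 p.2) with hI8
  set I9 : Finset (V × V) := (X.S0 ×ˢ (univ : Finset V)).filter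
    (fun p => G.Adj p.1 p.2) with hI9
  set tp : V × V → ℕ := fun p => t p.1 p.2 with htp
  set w1 := wf Sp (fun a => a) (fun _ => Ss) with hw1
  set w2 := wf I2 (fun p => p.2) B2 with hw2
  set w3 := wf P.V0 c X.nm with hw3
  set w4 := wf P.V0 c (fun _ => Hv) with hw4
  set w5 := wf I5 tp (fun p => X.ne p.1 p.2) with hw5
  set w6 := wf I6 tp (fun _ => Ss) with hw6
  set w7 := wf I7 tp (fun _ => Ss) with hw7
  set w8 := wf I8 tp (fun p => Hz p.1) with hw8
  set w9 := wf I9 tp (fun p => X.ne p.1 p.2) with hw9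
  set lam : ℝ := 1 / (K5 + 1) with hlam
  have hlam0 : 0 < lam := by rw [hlam]; positivity
  set R := range (d + 2) with hR
  -- bounds of the families
  have b1 : ∑ a ∈ R, ∑ b ∈ R, w1 a b ≤ e * d / 16 := by
    refine (wf_sum _ _ _ _).trans ?_
    rw [sum_const, nsmul_eq_mul]
    have h1 : (Sp.card : ℝ) * Ss.card ≤ (θ * d) * k2 :=
      mul_le_mul hSp (by exact_mod_cast hSk) (Nat.cast_nonneg _) (by positivity)
    have h2 := htk k2 (4 * ((k + 1) * (k2 + 1)) + h0) hk20 (by linarith)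
    linarith
  have b2 : ∑ a ∈ R, ∑ b ∈ R, w2 a b ≤ e * d / 16 := by
    refine (wf_sum _ _ _ _).trans ?_
    rw [hI2, sum_product]
    have h1 : ∀ n ∈ (univ : Finset (Fin M)), ∑ a ∈ P1 d A.Q A.P2, ((B2 (n, a)).card : ℝ) ≤
        τ * d * k2 := by
      intro n _
      by_cases hZ : ZT τ G d P A t n
      · have h2 : ∀ a ∈ P1 d A.Q A.P2, ((B2 (n, a)).card : ℝ) ≤
            if sg (Fn G P t n) (sdn P n) a ≠ 0 then (k2 : ℝ) else 0 := by
          intro a _
          simp only [hB2]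
          by_cases h3 : sg (Fn G P t n) (sdn P n) a ≠ 0
          · rw [if_pos ⟨hZ, h3⟩, if_pos h3]; exact_mod_cast hSk
          · rw [if_neg (fun h => h3 h.2), if_neg h3]; simp
        refine (sum_le_sum h2).trans ?_
        rw [← sum_filter, sum_const, nsmul_eq_mul]
        exact mul_le_mul_of_nonneg_right hZ.2 hk20
      · have h2 : ∀ a ∈ P1 d A.Q A.P2, ((B2 (n, a)).card : ℝ) = 0 := by
          intro a _
          simp only [hB2]
          rw [if_neg (fun h => hZ h.1)]; simp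
        rw [sum_congr rfl h2, sum_const_zero]
        positivity
    refine (sum_le_sum h1).trans ?_
    rw [sum_const, card_univ, Fintype.card_fin, nsmul_eq_mul]
    have h3 : τ * d * (16 * (((M : ℝ) + 1) * (k2 + 1))) ≤ e * d := by
      have := mul_le_mul_of_nonneg_right hτle hd0.le
      linarith
    have h4 : 0 ≤ τ * d := by positivity
    have h5 : (M : ℝ) * k2 ≤ (M + 1) * (k2 + 1) := by nlinarith
    have h6 := mul_le_mul_of_nonneg_left h5 h4
    nlinarith
  have b3 : ∑ a ∈ R, ∑ b ∈ R, w3 a b ≤ e * d / 16 := by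
    refine (wf_sum _ _ _ _).trans ?_
    have h1 : ∑ z ∈ P.V0, ((X.nm z).card : ℝ) ≤ P.V0.card * k := by
      rw [← nsmul_eq_mul, ← sum_const]
      exact sum_le_sum (fun z _ => by exact_mod_cast hHP.nmk z)
    have h2 : (P.V0.card : ℝ) * k ≤ θ * d * k := mul_le_mul_of_nonneg_right hDP.V0c hk0
    have h3 := htk k (4 * ((k + 1) * (k2 + 1)) + h0) hk0 (by linarith)
    linarith
  have b4 : ∑ a ∈ R, ∑ b ∈ R, w4 a b ≤ e * d / 16 := by
    refine (wf_sum _ _ _ _).trans ?_
    rw [sum_const, nsmul_eq_mul]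
    have h1 : (P.V0.card : ℝ) * Hv.card ≤ (θ * d) * h0 :=
      mul_le_mul hDP.V0c hHvc (Nat.cast_nonneg _) (by positivity)
    have h2 := htk h0 (4 * ((k + 1) * (k2 + 1)) + h0) hh00.le (by nlinarith)
    linarith
  have hne2 : ∀ I : Finset (V × V), (∀ p ∈ I, p.1 ∈ X.S0) →
      ∑ p ∈ I, ((X.ne p.1 p.2).card : ℝ) ≤ I.card * 2 := by
    intro I hI
    rw [← nsmul_eq_mul, ← sum_const]
    exact sum_le_sum (fun p hp => by exact_mod_cast (hHP.ne2 p.1 (hI p hp) p.2).2)
  have b5 : ∑ a ∈ R, ∑ b ∈ R, w5 a b ≤ e * d / 16 := by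
    refine (wf_sum _ _ _ _).trans ?_
    have h1 : ∑ p ∈ I5, ((X.ne p.1 p.2).card : ℝ) ≤ I5.card * 2 :=
      hne2 I5 (fun p hp => by
        rw [hI5, mem_filter, mem_product] at hp
        exact hp.1.1)
    have h2 : I5.card ≤ X.S0.card * (P.V0.card + Sp.card) := by
      apply fib X.S0 I5
      · intro p hp
        rw [hI5, mem_filter, mem_product] at hp
        exact hp.1.1
      intro z hz T hT
      have h3 : T ⊆
          P.V0 ∪ (univ : Finset V).filter (fun w => G.Adj z w ∧ t z w ∈ Sp) := by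
        intro w hw
        have hw2 := hT w hw
        rw [hI5, mem_filter] at hw2
        rw [mem_union, mem_filter]
        rcases hw2.2.2 with h | h
        · exact Or.inl h
        · exact Or.inr ⟨mem_univ _, hw2.2.1, h⟩
      refine (card_le_card h3).trans ((card_union_le _ _).trans ?_)
      apply Nat.add_le_add_left
      apply card_le_card_of_injOn (t z)
      · intro w hw
        rw [mem_coe, mem_filter] at hw
        exact mem_coe.2 hw.2.2
      · intro w hw w' hw' he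
        rw [mem_coe, mem_filter] at hw hw'
        exact hP.inj z (by rw [mem_coe, mem_nbh]; exact hthV z (hS0 z hz) w hw.2.1)
          (by rw [mem_coe, mem_nbh]; exact hthV z (hS0 z hz) w' hw'.2.1) he
    have h4 : (I5.card : ℝ) ≤ k * (2 * (θ * d)) := by
      have h5 : (I5.card : ℝ) ≤ X.S0.card * (P.V0.card + Sp.card) := by exact_mod_cast h2
      refine h5.trans ?_
      apply mul_le_mul
      · exact_mod_cast hHP.S0k
      · linarith [hDP.V0c]
      · positivity
      · exact hk0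
    have h6 := htk (4 * k) (4 * ((k + 1) * (k2 + 1)) + h0) (by positivity) (by linarith)
    linarith
  have b6 : ∑ a ∈ R, ∑ b ∈ R, w6 a b ≤ e * d / 16 := by
    refine (wf_sum _ _ _ _).trans ?_
    rw [sum_const, nsmul_eq_mul]
    have h1 : (I6.card : ℝ) ≤ (k : ℝ) * (ζ * d) := by
      have h2 : I6.card ≤ (X.VH \ P.V0).card * ⌊ζ * d⌋₊ := by
        apply fib (X.VH \ P.V0) I6
        · intro p hp
          rw [hI6, mem_filter, mem_product] at hp
          exact hp.1.1
        intro v hv T hT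
        rw [mem_sdiff] at hv
        apply Nat.le_floor
        refine le_trans (Nat.cast_le.2 (card_le_card ?_)) (hDP.thd v hv.2)
        intro w hw
        have hw2 := hT w hw
        rw [hI6, mem_filter] at hw2
        rw [mem_nbh]; exact hw2.2
      have h3 : (⌊ζ * d⌋₊ : ℝ) ≤ ζ * d := Nat.floor_le (by positivity)
      have h4 : ((X.VH \ P.V0).card : ℝ) ≤ k := by
        exact_mod_cast (card_le_card sdiff_subset).trans hHP.VHk
      have h5 : (I6.card : ℝ) ≤ (X.VH \ P.V0).card * ⌊ζ * d⌋₊ := by exact_mod_cast h2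
      exact h5.trans (mul_le_mul h4 h3 (Nat.cast_nonneg _) hk0)
    have h6 : (I6.card : ℝ) * Ss.card ≤ (k * (ζ * d)) * k2 :=
      mul_le_mul h1 (by exact_mod_cast hSk) (Nat.cast_nonneg _) (by positivity)
    have h7 : ζ * d * (16 * (((k : ℝ) + 1) * (k2 + 1))) ≤ e * d := by
      have := mul_le_mul_of_nonneg_right hζle hd0.le
      linarith
    have h8 : 0 ≤ ζ * d := by positivity
    have h9 : (k : ℝ) * k2 ≤ (k + 1) * (k2 + 1) := by nlinarith
    have h10 := mul_le_mul_of_nonneg_left h9 h8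
    nlinarith
  have b7 : ∑ a ∈ R, ∑ b ∈ R, w7 a b ≤ e * d / 16 := by
    refine (wf_sum _ _ _ _).trans ?_
    rw [sum_const, nsmul_eq_mul]
    have h1 : (I7.card : ℝ) ≤ (2 * k : ℝ) * (θ * d) := by
      have h2 : I7.card ≤ (W0 X ∩ P.V0).card * P.V0.card := by
        rw [← card_product]
        exact card_le_card (filter_subset _ _)
      have h3 : (W0 X ∩ P.V0).card ≤ 2 * k := by
        refine (card_le_card inter_subset_left).trans ?_
        unfold W0
        refine (card_union_le _ _).trans ?_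
        have := hHP.VHk
        have := hHP.S0k
        omega
      have h4 : (I7.card : ℝ) ≤ (W0 X ∩ P.V0).card * P.V0.card := by exact_mod_cast h2
      have h5 : ((W0 X ∩ P.V0).card : ℝ) ≤ 2 * k := by exact_mod_cast h3
      exact h4.trans (mul_le_mul h5 hDP.V0c (Nat.cast_nonneg _) (by positivity))
    have h6 : (I7.card : ℝ) * Ss.card ≤ ((2 * k) * (θ * d)) * k2 :=
      mul_le_mul h1 (by exact_mod_cast hSk) (Nat.cast_nonneg _) (by positivity)
    have h7 := htk (2 * k * k2) (4 * ((k + 1) * (k2 + 1)) + h0) (by positivity) (by nlinarith)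
    linarith
  have b8 : ∑ a ∈ R, ∑ b ∈ R, w8 a b ≤ e * d / 16 := by
    refine (wf_sum _ _ _ _).trans ?_
    have h1 : ∑ p ∈ I8, ((Hz p.1).card : ℝ) ≤ I8.card * 2000 := by
      rw [← nsmul_eq_mul, ← sum_const]
      apply sum_le_sum
      intro p hp
      rw [hI8, mem_filter, mem_product] at hp
      exact_mod_cast hHzc p.1 hp.1.1
    have h2 : I8.card ≤ X.S0.card * 1 := by
      apply fib X.S0 I8
      · intro p hp
        rw [hI8, mem_filter, mem_product] at hp
        exact hp.1.1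
      intro z _ T hT
      rw [card_le_one]
      intro w hw w' hw'
      have g1 := hT w hw
      have g2 := hT w' hw'
      rw [hI8, mem_filter] at g1 g2
      exact hHP.Hm z w w' g1.2 g2.2
    have h3 : (I8.card : ℝ) ≤ k := by
      have h4 : I8.card ≤ k := by
        have := hHP.S0k
        omega
      exact_mod_cast h4
    linarith
  have b9 : lam * ∑ a ∈ R, ∑ b ∈ R, w9 a b ≤ e * d / 16 := by
    have h1 : ∑ a ∈ R, ∑ b ∈ R, w9 a b ≤ 2 * k * d := by
      refine (wf_sum _ _ _ _).trans ?_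
      refine (hne2 I9 (fun p hp => by
        rw [hI9, mem_filter, mem_product] at hp
        exact hp.1.1)).trans ?_
      have h2 : I9.card ≤ X.S0.card * d := by
        apply fib X.S0 I9
        · intro p hp
          rw [hI9, mem_filter, mem_product] at hp
          exact hp.1.1
        intro z _ T hT
        refine (card_le_card ?_).trans (le_of_eq (hDP.reg z))
        intro w hw
        have hw2 := hT w hw
        rw [hI9, mem_filter] at hw2
        rw [mem_nbh]; exact hw2.2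
      have h3 : (I9.card : ℝ) ≤ k * d := by
        have h4 : (I9.card : ℝ) ≤ X.S0.card * d := by exact_mod_cast h2
        refine h4.trans ?_
        exact mul_le_mul_of_nonneg_right (by exact_mod_cast hHP.S0k) hd0.le
      linarith
    have h2 : lam * (2 * k * d) ≤ e * d / 16 := by
      rw [hlam, one_div, ← div_eq_inv_mul, div_le_iff₀ (by positivity)]
      have h3 : 32 * ((k : ℝ) + 1) / e ≤ K5 := Nat.le_ceil _
      rw [div_le_iff₀ he0] at h3
      have h4 := mul_le_mul_of_nonneg_right h3 hd0.le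
      have h5 : 0 < e * d := by positivity
      linarith
    exact (mul_le_mul_of_nonneg_left h1 hlam0.le).trans h2
  -- the shift
  obtain ⟨σ, hσ, hav⟩ := multi_shift hA hn (fun a b => w1 a b + (w2 a b + (w3 a b + (w4 a b +
    (w5 a b + (w6 a b + (w7 a b + (w8 a b + lam * w9 a b)))))))) (by
      intro a b
      have n1 := wf_nonneg Sp (fun a => a) (fun _ => Ss) a b
      have n2 := wf_nonneg I2 (fun p => p.2) B2 a b
      have n3 := wf_nonneg P.V0 c X.nm a b
      have n4 := wf_nonneg P.V0 c (fun _ => Hv) a b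
      have n5 := wf_nonneg I5 tp (fun p => X.ne p.1 p.2) a b
      have n6 := wf_nonneg I6 tp (fun _ => Ss) a b
      have n7 := wf_nonneg I7 tp (fun _ => Ss) a b
      have n8 := wf_nonneg I8 tp (fun p => Hz p.1) a b
      have n9 := mul_nonneg hlam0.le (wf_nonneg I9 tp (fun p => X.ne p.1 p.2) a b)
      positivity)
  have hed : 0 < e * d := by positivity
  simp only [sum_add_distrib, ← mul_sum] at hav
  set s1 := ∑ a ∈ R, w1 a (σ a) with hs1
  set s2 := ∑ a ∈ R, w2 a (σ a) with hs2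
  set s3 := ∑ a ∈ R, w3 a (σ a) with hs3
  set s4 := ∑ a ∈ R, w4 a (σ a) with hs4
  set s5 := ∑ a ∈ R, w5 a (σ a) with hs5
  set s6 := ∑ a ∈ R, w6 a (σ a) with hs6
  set s7 := ∑ a ∈ R, w7 a (σ a) with hs7
  set s8 := ∑ a ∈ R, w8 a (σ a) with hs8
  set s9 := ∑ a ∈ R, w9 a (σ a) with hs9
  have nn : ∀ {ι : Type u} (I : Finset ι) (α : ι → ℕ) (B : ι → Finset ℕ),
      0 ≤ ∑ a ∈ R, wf I α B a (σ a) := fun I α B => sum_nonneg (fun a _ => wf_nonneg I α B a _)
  have nn' : ∀ {ι : Type} (I : Finset ι) (α : ι → ℕ) (B : ι → Finset ℕ),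
      0 ≤ ∑ a ∈ R, wf I α B a (σ a) := fun I α B => sum_nonneg (fun a _ => wf_nonneg I α B a _)
  have q1 : 0 ≤ s1 := nn' _ _ _
  have q2 : 0 ≤ s2 := nn' _ _ _
  have q3 : 0 ≤ s3 := nn _ _ _
  have q4 : 0 ≤ s4 := nn _ _ _
  have q5 : 0 ≤ s5 := nn _ _ _
  have q6 : 0 ≤ s6 := nn _ _ _
  have q7 : 0 ≤ s7 := nn _ _ _
  have q8 : 0 ≤ s8 := nn _ _ _
  have q9 : 0 ≤ s9 := nn _ _ _
  have q9' : 0 ≤ lam * s9 := mul_nonneg hlam0.le q9
  have htot : s1 + (s2 + (s3 + (s4 + (s5 + (s6 + (s7 + (s8 + lam * s9))))))) < 1 := by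
    have h1 : e * d * (s1 + (s2 + (s3 + (s4 + (s5 + (s6 + (s7 + (s8 + lam * s9)))))))) <
        e * d * 1 := by linarith
    exact lt_of_mul_lt_mul_left h1 hed.le
  have r1 : s1 < 1 := by linarith
  have r2 : s2 < 1 := by linarith
  have r3 : s3 < 1 := by linarith
  have r4 : s4 < 1 := by linarith
  have r5 : s5 < 1 := by linarith
  have r6 : s6 < 1 := by linarith
  have r7 : s7 < 1 := by linarith
  have r8 : s8 < 1 := by linarith
  have r9 : lam * s9 < 1 := by linarith
  have hSpσ : ∀ a, σ a ∈ Sp.image σ ↔ a ∈ Sp := by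
    intro a
    rw [mem_image]
    constructor
    · rintro ⟨a', h1, h2⟩
      rwa [σ.injective h2] at h1
    · intro h1; exact ⟨a, h1, rfl⟩
  refine ⟨fun v w => σ (t v w), fun z => σ (c z), Sp.image σ, preP_perm hP σ hσ, ?_⟩
  constructor
  · intro v w hH hT
    rw [hSpσ]; exact hE0 v w hH hT
  · rw [disjoint_left]
    intro b hb hbS
    rw [mem_image] at hb
    obtain ⟨a, ha, rfl⟩ := hb
    exact wf_none Sp (fun a => a) (fun _ => Ss) R σ r1 a ha (mem_range.2 (hSpR a ha)) hbS
  · intro n hZ b hb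
    have hZ' := ZT_perm τ G d P A t σ hσ n hZ
    have hb2 : b = σ (σ.symm b) := by simp
    rw [hb2, sg_perm]
    by_contra hne
    set a := σ.symm b with ha
    have haC : a ∈ A.C0 d := by
      have h1 := hSC hb
      rw [hb2] at h1
      unfold Pal.C0 at h1 ⊢
      simpa only [mem_sdiff, mem_union, mem_range, hσ.lt, hσ.C] using h1
    have haP : a ∈ P1 d A.Q A.P2 := by
      unfold Pal.C0 at haC
      unfold P1
      simp only [mem_sdiff, mem_union, mem_range] at haC ⊢
      refine ⟨haC.1, ?_⟩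
      rintro ((h1 | h1) | h1)
      · exact haC.2 (Or.inl (Or.inl (hA.Q0 h1)))
      · exact haC.2 (Or.inl (Or.inr (hA.Q1 h1)))
      · exact haC.2 (Or.inr (hA.P2C h1))
    have haR : a ∈ R := by
      unfold Pal.C0 at haC
      exact (mem_sdiff.1 haC).1
    refine wf_none I2 (fun p => p.2) B2 R σ r2 (n, a) ?_ haR ?_
    · rw [hI2, mem_product]; exact ⟨mem_univ _, haP⟩
    · simp only [hB2]
      rw [if_pos ⟨hZ', hne⟩, ← hb2]; exact hb
  · intro z hz
    exact wf_none P.V0 c X.nm R σ r3 z hz (mem_range.2 (hcR z hz))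
  · intro z hz
    have h1 := wf_none P.V0 c (fun _ => Hv) R σ r4 z hz (mem_range.2 (hcR z hz))
    rw [hHv, mem_filter] at h1
    push Not at h1
    exact h1 (mem_range.2 ((hσ.lt _).2 (hcR z hz)))
  · have h1 := wf_at I9 tp (fun p => X.ne p.1 p.2) R σ
    have h2 : s9 < K5 + 1 := by
      rw [hlam, one_div, ← div_eq_inv_mul, div_lt_one (by positivity)] at r9
      exact r9
    have h3 : (((X.S0 ×ˢ (univ : Finset V)).filter
        (fun p => G.Adj p.1 p.2 ∧ σ (t p.1 p.2) ∈ X.ne p.1 p.2)).card : ℝ) ≤ s9 := by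
      refine le_trans (Nat.cast_le.2 (card_le_card ?_)) h1
      intro p hp
      rw [mem_filter] at hp
      rw [mem_filter, hI9, mem_filter]
      have hz := (mem_product.1 hp.1).1
      exact ⟨⟨hp.1, hp.2.1⟩, mem_range.2 (htR p.1 (hS0 _ hz) p.2 hp.2.1), hp.2.2⟩
    have h4 : (((X.S0 ×ˢ (univ : Finset V)).filter
        (fun p => G.Adj p.1 p.2 ∧ σ (t p.1 p.2) ∈ X.ne p.1 p.2)).card : ℝ) < K5 + 1 := by
      linarith
    have h5 : ((X.S0 ×ˢ (univ : Finset V)).filter
        (fun p => G.Adj p.1 p.2 ∧ σ (t p.1 p.2) ∈ X.ne p.1 p.2)).card < K5 + 1 := by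
      exact_mod_cast h4
    omega
  · intro z hz w hzw hbad
    by_contra hcon
    have h1 : w ∈ P.V0 ∨ t z w ∈ Sp := by
      rw [hSpσ] at hcon
      tauto
    refine wf_none I5 tp (fun p => X.ne p.1 p.2) R σ r5 (z, w) ?_
      (mem_range.2 (htR z (hS0 z hz) w hzw)) hbad
    rw [hI5, mem_filter, mem_product]
    exact ⟨⟨hz, mem_univ _⟩, hzw, h1⟩
  · intro v hv hv0 w hvw
    refine wf_none I6 tp (fun _ => Ss) R σ r6 (v, w) ?_ (mem_range.2 (hP.lt v w hvw))
    rw [hI6, mem_filter, mem_product, mem_sdiff]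
    exact ⟨⟨⟨hv, hv0⟩, mem_univ _⟩, hvw⟩
  · intro z hz hz0 w hw hzw
    refine wf_none I7 tp (fun _ => Ss) R σ r7 (z, w) ?_ (mem_range.2 (htR z hz0 w hzw))
    rw [hI7, mem_filter, mem_product, mem_inter]
    exact ⟨⟨⟨hz, hz0⟩, hw⟩, hzw⟩
  · intro z hz u hzu
    have hzu' := hHP.HG z u hzu
    have h1 := wf_none I8 tp (fun p => Hz p.1) R σ r8 (z, u) (by
      rw [hI8, mem_filter, mem_product]
      exact ⟨⟨hz, mem_univ _⟩, hzu⟩) (mem_range.2 (htR z (hS0 z hz) u hzu'))
    simp only [hHz, mem_filter] at h1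
    by_contra hcon
    push Not at hcon
    exact h1 ⟨mem_range.2 ((hσ.lt _).2 (htR z (hS0 z hz) u hzu')), hcon⟩

end shf

end Pool.Agent.Work.MP_db9399_da.helper82
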