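import Pool.Agent.Work.MP_db9399_dp_helper82.TyIn2

/-! # DENSE-ALL phase 2: candidates for exchanges (helper82) -/

set_option autoImplicit false

namespace Pool.Agent.Work.MP_db9399_da.helper82

open Finset Classical
open Pool.Agent.Work.MP_db9399_all (nb)
open Pool.Agent.Work.MP_db9399_da
open Pool.Agent.Work.MP_db9399_dp (zb)
open Pool.Agent.Work.MP_db9399_dp.helper82 (Cl clv zb_eq zb_empty vc mem_zb mem_nb' nb_thin_V0
  mem_cel clv_iff rr_r0 kp card_Cl)

universe u

section cand
variable {V : Type u} [Fintype V] {M : ℕ}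

/-- the colour `b` is allowed for prescribed edges at `v` -/
def alc (P : Pcs V M) (A : Pal) (v : V) (b : ℕ) : Prop :=
  if P.ty (P.pc v) = Ty.K then b ∉ A.C (P.th v) else b ∉ A.Q (P.pt v)

theorem zb_sum (G : SimpleGraph V) (P : Pcs V M) (z : V) :
    ∑ X, (zb (thin G P) P.V0 (clv P) z X).card =
      ((nb (thin G P) z).filter (fun v => v ∉ P.V0)).card := by
  rw [card_eq_sum_card_fiberwise (f := clv P) (t := univ) (fun _ _ => mem_coe.2 (mem_univ _))]
  apply sum_congr rfl
  intro X _
  congr 1
  ext v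
  rw [mem_zb, mem_filter, mem_filter, mem_nb']
  tauto

/-- neighbours where the colour `f` is not allowed, in one cell -/
theorem bad_cell {K ζ ε1 π κ : ℝ} (G : SimpleGraph V) (d : ℕ) (P : Pcs V M) (A : Pal)
    (hPD : PartD K ζ ε1 G d P) (hA : PalP A d π κ) (z : V) (hz : z ∈ P.V0) (f : ℕ) (X : Cl M) :
    (((zb (thin G P) P.V0 (clv P) z X).filter (fun x => ¬ alc P A x f)).card : ℝ) ≤
      51 / 100 * ((zb (thin G P) P.V0 (clv P) z X).card : ℝ) + ζ ^ 2 * d := by
  have hζ : 0 ≤ ζ ^ 2 * d := by positivity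
  have hle : (((zb (thin G P) P.V0 (clv P) z X).filter (fun x => ¬ alc P A x f)).card : ℝ) ≤
      ((zb (thin G P) P.V0 (clv P) z X).card : ℝ) := by
    exact_mod_cast card_le_card (filter_subset _ _)
  by_cases hv : vc P X
  swap
  · rw [zb_empty G P z X hv]
    simp only [filter_empty, card_empty, Nat.cast_zero, mul_zero, zero_add]
    exact hζ
  by_cases hbig : ζ ^ 2 * d ≤ ((zb (thin G P) P.V0 (clv P) z X).card : ℝ)
  swap
  · push Not at hbig
    have : (0 : ℝ) ≤ ((zb (thin G P) P.V0 (clv P) z X).card : ℝ) := Nat.cast_nonneg _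
    linarith
  rw [zb_eq G P z hz X hv] at hbig
  have hok := hPD.big z hz X.1 X.2 hbig
  have key : ∀ j : Fin 3, j.val < rr P X.1 →
      (∀ x ∈ zb (thin G P) P.V0 (clv P) z X, ¬ alc P A x f → lbl P x = j) →
      (((zb (thin G P) P.V0 (clv P) z X).filter (fun x => ¬ alc P A x f)).card : ℝ) ≤
      51 / 100 * ((zb (thin G P) P.V0 (clv P) z X).card : ℝ) + ζ ^ 2 * d := by
    intro j hj h1
    have h2 : (zb (thin G P) P.V0 (clv P) z X).filter (fun x => ¬ alc P A x f) ⊆
        nb G z ∩ clb P X.1 X.2 j := by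
      intro x hx
      rw [mem_filter] at hx
      have h3 := h1 x hx.1 hx.2
      rw [zb_eq G P z hz X hv, mem_inter] at hx
      rw [mem_inter]
      refine ⟨hx.1.1, ?_⟩
      unfold clb
      rw [mem_filter]
      exact ⟨hx.1.2, h3⟩
    have h4 := (abs_le.1 (hok j hj)).2
    have h5 : (((zb (thin G P) P.V0 (clv P) z X).filter (fun x => ¬ alc P A x f)).card : ℝ) ≤
        ((nb G z ∩ clb P X.1 X.2 j).card : ℝ) := by exact_mod_cast card_le_card h2
    have h6 : ((nb G z ∩ cel P X.1 X.2).card : ℝ) / rr P X.1 ≤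
        ((nb G z ∩ cel P X.1 X.2).card : ℝ) / 2 := by
      have h7 : (2 : ℝ) ≤ rr P X.1 := by
        unfold rr
        split_ifs <;> norm_num
      exact div_le_div_of_nonneg_left (Nat.cast_nonneg _) (by norm_num) h7
    rw [zb_eq G P z hz X hv] at h5 ⊢
    linarith
  have hno : (∀ x ∈ zb (thin G P) P.V0 (clv P) z X, ¬ ¬ alc P A x f) →
      (((zb (thin G P) P.V0 (clv P) z X).filter (fun x => ¬ alc P A x f)).card : ℝ) ≤
      51 / 100 * ((zb (thin G P) P.V0 (clv P) z X).card : ℝ) + ζ ^ 2 * d := by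
    intro h1
    rw [filter_eq_empty_iff.2 h1]
    simp only [card_empty, Nat.cast_zero]
    positivity
  have hpc : ∀ x ∈ zb (thin G P) P.V0 (clv P) z X, P.pc x = X.1 := by
    intro x hx
    rw [mem_zb] at hx
    exact congrArg Prod.fst hx.2.2
  by_cases hK : P.ty X.1 = Ty.K
  · by_cases hex : ∃ j : Fin 3, f ∈ A.C j
    · obtain ⟨j, hj⟩ := hex
      apply key j
      · unfold rr; rw [if_pos hK]; exact j.2
      · intro x hx hal
        unfold alc at hal
        unfold lbl
        rw [hpc x hx, if_pos hK] at hal ⊢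
        push Not at hal
        by_contra hne
        exact disjoint_left.1 (hA.Cdis _ _ hne) hal hj
    · apply hno
      intro x hx hal
      unfold alc at hal
      rw [hpc x hx, if_pos hK] at hal
      push Not at hal
      exact hex ⟨_, hal⟩
  · have hr : rr P X.1 = 2 := by unfold rr; rw [if_neg hK]
    by_cases h0 : f ∈ A.Q false
    · apply key 0
      · rw [hr]; norm_num
      · intro x hx hal
        unfold alc at hal
        unfold lbl
        rw [hpc x hx, if_neg hK] at hal ⊢
        push Not at hal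
        cases hp : P.pt x
        · simp
        · rw [hp] at hal
          exact absurd (hA.Q1 hal) (disjoint_left.1 (hA.Cdis 0 1 (by decide)) (hA.Q0 h0))
    · by_cases h1 : f ∈ A.Q true
      · apply key 1
        · rw [hr]; norm_num
        · intro x hx hal
          unfold alc at hal
          unfold lbl
          rw [hpc x hx, if_neg hK] at hal ⊢
          push Not at hal
          cases hp : P.pt x
          · rw [hp] at hal; exact absurd hal h0
          · simp
      · apply hno
        intro x hx hal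
        unfold alc at hal
        rw [hpc x hx, if_neg hK] at hal
        push Not at hal
        cases hp : P.pt x
        · rw [hp] at hal; exact h0 hal
        · rw [hp] at hal; exact h1 hal

/-- CAND: neighbours `x` of `z` such that `f` is allowed at `x` and the colour of `z x` is allowed
at `v`. -/
theorem cand {C g ρ K ζ θ ε1 π κ : ℝ} (G : SimpleGraph V) (d : ℕ) (P : Pcs V M) (A : Pal)
    (hD : DecP C g ρ ζ θ G d P) (hPD : PartD K ζ ε1 G d P) (hA : PalP A d π κ)
    (hκ : κ ≤ 1 / 100) (hθ : θ ≤ 1 / 100) (hζ : 2 * M * ζ ^ 2 ≤ 1 / 100)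
    (hd : (100000000000000 : ℝ) ≤ d) (z : V) (hz : z ∈ P.V0) (v : V) (f : ℕ)
    (tz : V → ℕ) (hinj : Set.InjOn tz (nb G z : Set V)) :
    (d : ℝ) / 10 ≤ (((nb G z).filter (fun x => x ∉ P.V0 ∧ alc P A x f ∧
      alc P A v (tz x))).card : ℝ) := by
  have hd0 : (0 : ℝ) ≤ d := Nat.cast_nonneg d
  have hth := nb_thin_V0 G P z hz
  set B1 := ((nb (thin G P) z).filter (fun x => x ∉ P.V0)).filter (fun x => ¬ alc P A x f)
    with hB1
  set B2 := (nb G z).filter (fun x => ¬ alc P A v (tz x)) with hB2
  have h1 : nb G z ⊆ (P.V0 ∪ B1 ∪ B2) ∪ ((nb G z).filter (fun x => x ∉ P.V0 ∧ alc P A x f ∧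
      alc P A v (tz x))) := by
    intro x hx
    rw [mem_union, mem_union, mem_union, hB1, hB2, mem_filter, mem_filter, mem_filter, mem_filter,
      hth]
    tauto
  have h2 := card_le_card h1
  have h3 := card_union_le (P.V0 ∪ B1 ∪ B2) ((nb G z).filter (fun x => x ∉ P.V0 ∧ alc P A x f ∧
      alc P A v (tz x)))
  have h4 := card_union_le (P.V0 ∪ B1) B2
  have h5 := card_union_le P.V0 B1
  rw [hD.reg] at h2
  have h6 : d ≤ P.V0.card + B1.card + B2.card + ((nb G z).filter (fun x => x ∉ P.V0 ∧
      alc P A x f ∧ alc P A v (tz x))).card := by omega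
  have h7 : (d : ℝ) ≤ P.V0.card + B1.card + B2.card + ((nb G z).filter (fun x => x ∉ P.V0 ∧
      alc P A x f ∧ alc P A v (tz x))).card := by exact_mod_cast h6
  have h8 := hD.V0c
  have h9 : θ * d ≤ 1 / 100 * d := mul_le_mul_of_nonneg_right hθ hd0
  -- B2
  have h10 : (B2.card : ℝ) ≤ 1 / 3 * d := by
    have e1 : B2.card ≤ (if P.ty (P.pc v) = Ty.K then A.C (P.th v) else A.Q (P.pt v)).card := by
      apply card_le_card_of_injOn tz
      · intro x hx
        rw [mem_coe, hB2, mem_filter] at hx
        rw [mem_coe]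
        have hx2 := hx.2
        unfold alc at hx2
        by_cases hK : P.ty (P.pc v) = Ty.K
        · rw [if_pos hK] at hx2 ⊢
          push Not at hx2
          exact hx2
        · rw [if_neg hK] at hx2 ⊢
          push Not at hx2
          exact hx2
      · intro x hx x' hx' he
        rw [mem_coe, hB2, mem_filter] at hx hx'
        exact hinj (mem_coe.2 hx.1) (mem_coe.2 hx'.1) he
    have e2 : (B2.card : ℝ) ≤
        ((if P.ty (P.pc v) = Ty.K then A.C (P.th v) else A.Q (P.pt v)).card : ℝ) := by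
      exact_mod_cast e1
    refine e2.trans ?_
    split_ifs
    · have e3 := (abs_le.1 (hA.Cc (P.th v))).2
      norm_num at e3
      linarith
    · have e3 := (hA.Qc (P.pt v)).2
      have e4 : κ * d ≤ 1 / 100 * d := mul_le_mul_of_nonneg_right hκ hd0
      linarith
  -- B1
  have h11 : (B1.card : ℝ) ≤ 51 / 100 * d + 2 * M * ζ ^ 2 * d := by
    have e1 : (B1.card : ℝ) = ∑ X, (((zb (thin G P) P.V0 (clv P) z X).filter
        (fun x => ¬ alc P A x f)).card : ℝ) := by
      rw [hB1, card_eq_sum_card_fiberwise (f := clv P) (t := univ)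
        (fun _ _ => mem_coe.2 (mem_univ _))]
      push_cast
      apply sum_congr rfl
      intro X _
      congr 2
      ext x
      rw [mem_filter, mem_filter, mem_filter, mem_filter, mem_zb, mem_nb']
      tauto
    rw [e1]
    refine (sum_le_sum (fun X _ => bad_cell G d P A hPD hA z hz f X)).trans ?_
    rw [sum_add_distrib, ← mul_sum, sum_const, card_univ, card_Cl, nsmul_eq_mul]
    have e2 : ∑ X, ((zb (thin G P) P.V0 (clv P) z X).card : ℝ) ≤ d := by
      rw [← Nat.cast_sum, zb_sum]
      have e3 : ((nb (thin G P) z).filter (fun v => v ∉ P.V0)).card ≤ d := by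
        refine (card_le_card (filter_subset _ _)).trans ?_
        rw [hth, hD.reg]
      exact_mod_cast e3
    push_cast
    nlinarith
  have h12 : 2 * M * ζ ^ 2 * d ≤ 1 / 100 * d := mul_le_mul_of_nonneg_right hζ hd0
  linarith

end cand

end Pool.Agent.Work.MP_db9399_da.helper82
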