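import Pool.Agent.Work.MP_db9399_all.Interface

/-! # DENSE-ALL phase 2: recolouring one edge, exchange steps (helper82) -/

set_option autoImplicit false

namespace Pool.Agent.Work.MP_db9399_da.helper82

open Finset Classical
open Pool.Agent.Work.MP_db9399_all (nb)

universe u

section step
variable {V : Type u} [Fintype V]

theorem mem_nbh (G : SimpleGraph V) (v w : V) : w ∈ nb G v ↔ G.Adj v w := by
  simp [nb]

/-- colours at `v` -/
noncomputable def Fs (T : SimpleGraph V) (t : V → V → ℕ) (v : V) : Finset ℕ :=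
  (nb T v).image (t v)

theorem mem_Fs (T : SimpleGraph V) (t : V → V → ℕ) (v : V) (b : ℕ) :
    b ∈ Fs T t v ↔ ∃ w, T.Adj v w ∧ t v w = b := by
  unfold Fs
  rw [mem_image]
  simp only [mem_nbh]

/-- proper edge colouring -/
structure EC (T : SimpleGraph V) (t : V → V → ℕ) : Prop where
  sym : ∀ v w, t v w = t w v
  inj : ∀ v w w', T.Adj v w → T.Adj v w' → t v w = t v w' → w = w'

/-- the edge `y w` gets the colour `c` -/
structure Rec1 (T : SimpleGraph V) (t t' : V → V → ℕ) (y w : V) (c : ℕ) : Prop where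
  ec : EC T t'
  new : t' y w = c
  old : ∀ a b, ¬ ((a = y ∧ b = w) ∨ (a = w ∧ b = y)) → t' a b = t a b
  Fy : Fs T t' y = insert c ((Fs T t y).erase (t y w))
  Fw : Fs T t' w = insert c ((Fs T t w).erase (t y w))
  Fo : ∀ a, a ≠ y → a ≠ w → Fs T t' a = Fs T t a

theorem rec1 {T : SimpleGraph V} {t : V → V → ℕ} (h : EC T t) (y w : V) (hyw : T.Adj y w)
    (c : ℕ) (hy : c ∉ Fs T t y) (hw : c ∉ Fs T t w) :
    ∃ t', Rec1 T t t' y w c := by
  have hne : y ≠ w := hyw.ne
  set t' : V → V → ℕ := fun a b => if (a = y ∧ b = w) ∨ (a = w ∧ b = y) then c else t a b with ht'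
  have hyw' : t' y w = c := by simp [ht']
  have hwy' : t' w y = c := by simp [ht']
  have hold : ∀ a b, ¬ ((a = y ∧ b = w) ∨ (a = w ∧ b = y)) → t' a b = t a b := by
    intro a b hab
    simp only [ht']
    rw [if_neg hab]
  have hsym : ∀ a b, t' a b = t' b a := by
    intro a b
    by_cases hab : (a = y ∧ b = w) ∨ (a = w ∧ b = y)
    · rcases hab with ⟨rfl, rfl⟩ | ⟨rfl, rfl⟩
      · rw [hyw', hwy']
      · rw [hyw', hwy']
    · rw [hold a b hab, hold b a (by tauto), h.sym]
  have hoy : ∀ b, b ≠ w → t' y b = t y b := fun b hb => hold y b (by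
    rintro (⟨_, h1⟩ | ⟨h1, _⟩)
    · exact hb h1
    · exact hne h1)
  have how : ∀ b, b ≠ y → t' w b = t w b := fun b hb => hold w b (by
    rintro (⟨h1, _⟩ | ⟨_, h1⟩)
    · exact hne h1.symm
    · exact hb h1)
  have hoo : ∀ a b, a ≠ y → a ≠ w → t' a b = t a b := fun a b h1 h2 => hold a b (by
    rintro (⟨h3, _⟩ | ⟨h3, _⟩)
    · exact h1 h3
    · exact h2 h3)
  have hcy : ∀ b, T.Adj y b → t y b ≠ c := fun b hb e => hy ((mem_Fs T t y c).2 ⟨b, hb, e⟩)
  have hcw : ∀ b, T.Adj w b → t w b ≠ c := fun b hb e => hw ((mem_Fs T t w c).2 ⟨b, hb, e⟩)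
  refine ⟨t', ⟨hsym, ?_⟩, hyw', hold, ?_, ?_, ?_⟩
  · intro a b b' hb hb' he
    by_cases hay : a = y
    · subst hay
      by_cases h1 : b = w
      · by_cases h2 : b' = w
        · rw [h1, h2]
        · rw [h1, hyw', hoy b' h2] at he
          exact absurd he.symm (hcy b' hb')
      · by_cases h2 : b' = w
        · rw [h2, hyw', hoy b h1] at he
          exact absurd he (hcy b hb)
        · rw [hoy b h1, hoy b' h2] at he
          exact h.inj a b b' hb hb' he
    · by_cases haw : a = w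
      · subst haw
        by_cases h1 : b = y
        · by_cases h2 : b' = y
          · rw [h1, h2]
          · rw [h1, hwy', how b' h2] at he
            exact absurd he.symm (hcw b' hb')
        · by_cases h2 : b' = y
          · rw [h2, hwy', how b h1] at he
            exact absurd he (hcw b hb)
          · rw [how b h1, how b' h2] at he
            exact h.inj a b b' hb hb' he
      · rw [hoo a b hay haw, hoo a b' hay haw] at he
        exact h.inj a b b' hb hb' he
  · ext e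
    rw [mem_Fs, mem_insert, mem_erase, mem_Fs]
    constructor
    · rintro ⟨b, hb, he⟩
      by_cases h1 : b = w
      · left; rw [← he, h1, hyw']
      · right
        rw [hoy b h1] at he
        refine ⟨?_, b, hb, he⟩
        intro h2
        rw [← he] at h2
        exact h1 (h.inj y b w hb hyw h2)
    · rintro (h1 | ⟨h1, b, hb, he⟩)
      · exact ⟨w, hyw, by rw [hyw', h1]⟩
      · have h2 : b ≠ w := by
          intro h3; rw [h3] at he; exact h1 he.symm
        exact ⟨b, hb, by rw [hoy b h2]; exact he⟩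
  · ext e
    rw [mem_Fs, mem_insert, mem_erase, mem_Fs]
    constructor
    · rintro ⟨b, hb, he⟩
      by_cases h1 : b = y
      · left; rw [← he, h1, hwy']
      · right
        rw [how b h1] at he
        refine ⟨?_, b, hb, he⟩
        intro h2
        rw [← he, h.sym y w] at h2
        exact h1 (h.inj w b y hb hyw.symm h2)
    · rintro (h1 | ⟨h1, b, hb, he⟩)
      · exact ⟨y, hyw.symm, by rw [hwy', h1]⟩
      · have h2 : b ≠ y := by
          intro h3; rw [h3, h.sym w y] at he; exact h1 he.symm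
        exact ⟨b, hb, by rw [how b h2]; exact he⟩
  · intro a h1 h2
    unfold Fs
    apply image_congr
    intro b _
    exact hoo a b h1 h2

/-- `z v` gets the colour `b3` of `z x`, and `z x` gets `f` -/
structure StepR (T : SimpleGraph V) (t t' : V → V → ℕ) (z v x : V) (b b3 f : ℕ) : Prop where
  ec : EC T t'
  zv : t' z v = b3
  zx : t' z x = f
  old : ∀ p q, ¬ ((p = z ∧ q = v) ∨ (p = v ∧ q = z)) → ¬ ((p = z ∧ q = x) ∨ (p = x ∧ q = z)) →
    t' p q = t p q
  Fv : Fs T t' v = insert b3 ((Fs T t v).erase b)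
  Fx : Fs T t' x = insert f ((Fs T t x).erase b3)
  Fz : Fs T t' z = insert f ((Fs T t z).erase b)
  Fo : ∀ a, a ≠ z → a ≠ v → a ≠ x → Fs T t' a = Fs T t a

theorem step {T : SimpleGraph V} {t : V → V → ℕ} (h : EC T t) (z v x : V) (b b3 f : ℕ)
    (hzv : T.Adj z v) (hzx : T.Adj z x) (hvx : v ≠ x) (htv : t z v = b) (htx : t z x = b3)
    (h3 : b3 ∉ Fs T t v) (hf : f ∉ Fs T t x) (hfz : f = b ∨ f ∉ Fs T t z) :
    ∃ t', StepR T t t' z v x b b3 f := by
  have hzv' : z ≠ v := hzv.ne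
  have hzx' : z ≠ x := hzx.ne
  have hbb : b ≠ b3 := by
    intro e
    rw [← htv, ← htx] at e
    exact hvx (h.inj z v x hzv hzx e)
  have hbz : b ∈ Fs T t z := (mem_Fs _ _ _ _).2 ⟨v, hzv, htv⟩
  have hb3z : b3 ∈ Fs T t z := (mem_Fs _ _ _ _).2 ⟨x, hzx, htx⟩
  have hb3x : b3 ∈ Fs T t x := (mem_Fs _ _ _ _).2 ⟨z, hzx.symm, by rw [h.sym, htx]⟩
  have hbv : b ∈ Fs T t v := (mem_Fs _ _ _ _).2 ⟨z, hzv.symm, by rw [h.sym, htv]⟩
  have hfb3 : f ≠ b3 := by
    intro e; rw [e] at hf; exact hf hb3x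
  -- a fresh colour
  obtain ⟨N, hN⟩ := Infinite.exists_notMem_finset (Fs T t z ∪ Fs T t v ∪ Fs T t x ∪ {f, b3, b})
  simp only [mem_union, mem_insert, mem_singleton] at hN
  push Not at hN
  obtain ⟨⟨⟨n1, n2⟩, n3⟩, n4, n5, n6⟩ := hN
  obtain ⟨t1, r1⟩ := rec1 h z x hzx N n1 n3
  have e1v : Fs T t1 v = Fs T t v := r1.Fo v hzv'.symm hvx
  have e1z : Fs T t1 z = insert N ((Fs T t z).erase b3) := by rw [r1.Fy, htx]
  have e1x : Fs T t1 x = insert N ((Fs T t x).erase b3) := by rw [r1.Fw, htx]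
  have t1v : t1 z v = b := by
    rw [r1.old z v (by
      rintro (⟨_, h1⟩ | ⟨h1, _⟩)
      · exact hvx h1
      · exact hzx' h1), htv]
  obtain ⟨t2, r2⟩ := rec1 r1.ec z v hzv b3 (by
    rw [e1z, mem_insert, mem_erase]
    push Not
    exact ⟨n5.symm, fun h1 => absurd rfl h1⟩) (by rw [e1v]; exact h3)
  have e2z : Fs T t2 z = insert b3 ((insert N ((Fs T t z).erase b3)).erase b) := by
    rw [r2.Fy, e1z, t1v]
  have e2v : Fs T t2 v = insert b3 ((Fs T t v).erase b) := by
    rw [r2.Fw, e1v, t1v]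
  have e2x : Fs T t2 x = insert N ((Fs T t x).erase b3) := by
    rw [r2.Fo x hzx'.symm hvx.symm, e1x]
  have t2x : t2 z x = N := by
    rw [r2.old z x (by
      rintro (⟨_, h1⟩ | ⟨h1, _⟩)
      · exact hvx h1.symm
      · exact hzv' h1), r1.new]
  obtain ⟨t3, r3⟩ := rec1 r2.ec z x hzx f (by
    rw [e2z, mem_insert, mem_erase, mem_insert, mem_erase]
    push Not
    refine ⟨hfb3, fun h1 => ⟨n4.symm, fun _ h2 => ?_⟩⟩
    rcases hfz with h4 | h4
    · exact h1 h4
    · exact h4 h2) (by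
    rw [e2x, mem_insert, mem_erase]
    push Not
    exact ⟨n4.symm, fun _ => hf⟩)
  refine ⟨t3, r3.ec, ?_, r3.new, ?_, ?_, ?_, ?_, ?_⟩
  · rw [r3.old z v (by
      rintro (⟨_, h1⟩ | ⟨h1, _⟩)
      · exact hvx h1
      · exact hzx' h1), r2.new]
  · intro p q h1 h2
    rw [r3.old p q h2, r2.old p q h1, r1.old p q h2]
  · rw [r3.Fo v hzv'.symm hvx, e2v]
  · rw [r3.Fw, e2x, t2x]
    ext e
    simp only [mem_insert, mem_erase]
    constructor
    · rintro (h1 | ⟨h1, h2 | h2⟩)
      · exact Or.inl h1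
      · exact absurd h2 h1
      · exact Or.inr h2
    · rintro (h1 | h1)
      · exact Or.inl h1
      · refine Or.inr ⟨?_, Or.inr h1⟩
        intro h2; rw [h2] at h1; exact n3 h1.2
  · rw [r3.Fy, e2z, t2x]
    ext e
    simp only [mem_insert, mem_erase]
    constructor
    · rintro (h1 | ⟨h1, h2 | ⟨h2, h4 | h4⟩⟩)
      · exact Or.inl h1
      · right; rw [h2]; exact ⟨hbb.symm, hb3z⟩
      · exact absurd h4 h1
      · exact Or.inr ⟨h2, h4.2⟩
    · rintro (h1 | ⟨h1, h2⟩)
      · exact Or.inl h1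
      · right
        refine ⟨fun h4 => ?_, ?_⟩
        · rw [h4] at h2; exact n1 h2
        · by_cases h5 : e = b3
          · exact Or.inl h5
          · exact Or.inr ⟨h1, Or.inr ⟨h5, h2⟩⟩
  · intro a h1 h2 h4
    rw [r3.Fo a h1 h4, r2.Fo a h1 h2, r1.Fo a h1 h4]

end step

end Pool.Agent.Work.MP_db9399_da.helper82
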