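import Pool.Agent.Work.MP_db9399_da.Defs

/-! # DENSE-ALL phase 2: permutations of the colours (helper82)

`PreP` is invariant under permutations of the colours which preserve the palettes; cyclic shifts of
one atom and the first moment. -/

set_option autoImplicit false

namespace Pool.Agent.Work.MP_db9399_da.helper82

open Finset Classical
open Pool.Agent.Work.MP_db9399_all (nb)
open Pool.Agent.Work.MP_db9399_lt (us)
open Pool.Agent.Work.MP_db9399_da

universe u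

/-! ## Shifts -/

theorem shift_exists (S : Finset ℕ) (hS : S.Nonempty) (w : ℕ → ℕ → ℝ) :
    ∃ σ : Equiv.Perm ℕ, (∀ a, a ∉ S → σ a = a) ∧ (∀ a, σ a ∈ S ↔ a ∈ S) ∧
      (S.card : ℝ) * ∑ a ∈ S, w a (σ a) ≤ ∑ a ∈ S, ∑ b ∈ S, w a b := by
  have hpos : 0 < S.card := card_pos.2 hS
  haveI : NeZero S.card := ⟨hpos.ne'⟩
  set f : S ≃ Fin S.card := S.equivFin with hf
  -- the shifts
  set τ : Fin S.card → Equiv.Perm S := fun r => f.trans ((Equiv.addRight r).trans f.symm) with hτ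
  set σ : Fin S.card → Equiv.Perm ℕ := fun r => (τ r).ofSubtype with hσ
  have h1 : ∀ r, ∀ a (ha : a ∈ S), σ r a = (τ r ⟨a, ha⟩ : ℕ) := by
    intro r a ha
    simp only [hσ]
    exact Equiv.Perm.ofSubtype_apply_of_mem (τ r) ha
  have h2 : ∀ r, ∀ a, a ∉ S → σ r a = a := by
    intro r a ha
    simp only [hσ]
    exact Equiv.Perm.ofSubtype_apply_of_not_mem (τ r) ha
  have h3 : ∀ r a, σ r a ∈ S ↔ a ∈ S := by
    intro r a
    by_cases ha : a ∈ S
    · rw [h1 r a ha]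
      exact ⟨fun _ => ha, fun _ => (τ r ⟨a, ha⟩).2⟩
    · rw [h2 r a ha]
  have h4 : ∀ a ∈ S, ∑ r, w a (σ r a) = ∑ b ∈ S, w a b := by
    intro a ha
    have e1 : ∑ r, w a (σ r a) = ∑ r : Fin S.card, w a (f.symm (f ⟨a, ha⟩ + r) : ℕ) := by
      apply sum_congr rfl
      intro r _
      rw [h1 r a ha]
      rfl
    rw [e1]
    have e2 : ∑ r : Fin S.card, w a (f.symm (f ⟨a, ha⟩ + r) : ℕ) =
        ∑ s : Fin S.card, w a (f.symm s : ℕ) :=
      Equiv.sum_comp (Equiv.addLeft (f ⟨a, ha⟩)) (fun s => w a (f.symm s : ℕ))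
    rw [e2]
    have e3 : ∑ s : Fin S.card, w a (f.symm s : ℕ) = ∑ b : S, w a (b : ℕ) :=
      Equiv.sum_comp f.symm (fun b : S => w a (b : ℕ))
    rw [e3]
    exact Finset.sum_coe_sort S (fun b => w a b)
  have h5 : ∑ r, ∑ a ∈ S, w a (σ r a) = ∑ a ∈ S, ∑ b ∈ S, w a b := by
    rw [sum_comm]
    exact sum_congr rfl h4
  have h6 : ∃ r ∈ (univ : Finset (Fin S.card)), ∑ a ∈ S, w a (σ r a) ≤
      (∑ a ∈ S, ∑ b ∈ S, w a b) / S.card := by
    apply exists_le_of_sum_le univ_nonempty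
    rw [h5, sum_const, card_univ, Fintype.card_fin, nsmul_eq_mul]
    rw [mul_div_cancel₀]
    exact_mod_cast hpos.ne'
  obtain ⟨r, _, hr⟩ := h6
  refine ⟨σ r, h2 r, h3 r, ?_⟩
  rw [le_div_iff₀ (by exact_mod_cast hpos)] at hr
  linarith

/-! ## Invariance of `PreP` -/

section inv
variable {V : Type u} [Fintype V] {M : ℕ}

theorem mem_us' {W : Type u} [Fintype W] (F : W → Finset ℕ) (b : ℕ) (v : W) :
    v ∈ us F b ↔ b ∈ F v := by
  unfold us; rw [mem_filter]; simp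

theorem Fc_perm (G : SimpleGraph V) (P : Pcs V M) (t : V → V → ℕ) (σ : Equiv.Perm ℕ) (v : V) :
    Fc G P (fun v w => σ (t v w)) v = (Fc G P t v).image σ := by
  unfold Fc
  rw [image_image]
  rfl

theorem us_perm (G : SimpleGraph V) (P : Pcs V M) (t : V → V → ℕ) (σ : Equiv.Perm ℕ) (n : Fin M)
    (b : ℕ) : us (Fn G P (fun v w => σ (t v w)) n) (σ b) = us (Fn G P t n) b := by
  ext v
  rw [mem_us', mem_us']
  unfold Fn
  rw [Fc_perm, mem_image]
  constructor
  · rintro ⟨a, ha, h⟩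
    rwa [σ.injective h] at ha
  · intro h; exact ⟨b, h, rfl⟩

theorem sg_perm (G : SimpleGraph V) (P : Pcs V M) (t : V → V → ℕ) (σ : Equiv.Perm ℕ) (n : Fin M)
    (b : ℕ) : sg (Fn G P (fun v w => σ (t v w)) n) (sdn P n) (σ b) =
      sg (Fn G P t n) (sdn P n) b := by
  unfold sg; rw [us_perm]

theorem sgp_perm (G : SimpleGraph V) (P : Pcs V M) (t : V → V → ℕ) (σ : Equiv.Perm ℕ) (n : Fin M)
    (i : Bool) (b : ℕ) : sgp (Fn G P (fun v w => σ (t v w)) n) (sdn P n) (ptn P n) i (σ b) =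
      sgp (Fn G P t n) (sdn P n) (ptn P n) i b := by
  unfold sgp; rw [us_perm]

theorem need_perm (G : SimpleGraph V) (P : Pcs V M) (t : V → V → ℕ) (σ : Equiv.Perm ℕ) (n : Fin M)
    (β : Bool) (b : ℕ) : need (Fn G P (fun v w => σ (t v w)) n) (sdn P n) β (σ b) =
      need (Fn G P t n) (sdn P n) β b := by
  unfold need; rw [us_perm]

theorem image_perm (σ : Equiv.Perm ℕ) (S : Finset ℕ) (h : ∀ b, σ b ∈ S ↔ b ∈ S) :
    S.image σ = S := by
  ext b
  rw [mem_image]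
  constructor
  · rintro ⟨a, ha, rfl⟩
    exact (h a).2 ha
  · intro hb
    refine ⟨σ.symm b, ?_, by simp⟩
    rw [← h, Equiv.apply_symm_apply]
    exact hb

theorem sum_perm {α : Type*} [AddCommMonoid α] (σ : Equiv.Perm ℕ) (S : Finset ℕ)
    (h : ∀ b, σ b ∈ S ↔ b ∈ S) (f : ℕ → α) : ∑ b ∈ S, f b = ∑ b ∈ S, f (σ b) := by
  conv_lhs => rw [← image_perm σ S h]
  exact sum_image (fun a _ b _ e => σ.injective e)

/-- `σ` preserves the palettes -/
structure PalI (A : Pal) (d : ℕ) (σ : Equiv.Perm ℕ) : Prop where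
  lt : ∀ b, σ b < d + 2 ↔ b < d + 2
  C : ∀ i b, σ b ∈ A.C i ↔ b ∈ A.C i
  Q : ∀ i b, σ b ∈ A.Q i ↔ b ∈ A.Q i
  P2 : ∀ b, σ b ∈ A.P2 ↔ b ∈ A.P2

theorem preP_perm {ε ζ : ℝ} {G : SimpleGraph V} {d : ℕ} {P : Pcs V M} {A : Pal}
    {t : V → V → ℕ} {c : V → ℕ} {Sp : Finset ℕ} (h : PreP ε ζ G d P A t c Sp)
    (σ : Equiv.Perm ℕ) (hσ : PalI A d σ) :
    PreP ε ζ G d P A (fun v w => σ (t v w)) (fun z => σ (c z)) (Sp.image σ) := by
  have hP1 : ∀ b, σ b ∈ P1 d A.Q A.P2 ↔ b ∈ P1 d A.Q A.P2 := by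
    intro b
    unfold P1
    simp only [mem_sdiff, mem_union, mem_range, hσ.lt, hσ.Q, hσ.P2]
  have hC0 : ∀ b, σ b ∈ A.C0 d ↔ b ∈ A.C0 d := by
    intro b
    unfold Pal.C0
    simp only [mem_sdiff, mem_union, mem_range, hσ.lt, hσ.C]
  constructor
  · intro v w; rw [h.sym]
  · intro v w hvw; exact (hσ.lt _).2 (h.lt v w hvw)
  · intro v w hw w' hw' he
    exact h.inj v hw hw' (σ.injective he)
  · rw [h.own, image_image]; rfl
  · intro b hb
    rw [mem_image] at hb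
    obtain ⟨a, ha, rfl⟩ := hb
    exact (hC0 a).2 (h.SC ha)
  · intro z hz z' hz' he
    exact h.oin hz hz' (σ.injective he)
  · intro z hz hcon
    rw [Fc_perm, mem_image] at hcon
    obtain ⟨a, ha, he⟩ := hcon
    rw [σ.injective he] at ha
    exact h.onb z hz ha
  · intro v hv hty
    rw [Fc_perm, disjoint_left]
    intro b hb hbQ
    rw [mem_image] at hb
    obtain ⟨a, ha, rfl⟩ := hb
    exact disjoint_left.1 (h.rN v hv hty) ha ((hσ.Q _ _).1 hbQ)
  · intro v hv hty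
    rw [Fc_perm, disjoint_left]
    intro b hb hbQ
    rw [mem_image] at hb
    obtain ⟨a, ha, rfl⟩ := hb
    exact disjoint_left.1 (h.rK v hv hty) ha ((hσ.C _ _).1 hbQ)
  · intro n b
    have := us_perm G P t σ n (σ.symm b)
    rw [Equiv.apply_symm_apply] at this
    rw [this]
    exact h.load n _
  · intro n hty i b hb
    have h1 := sgp_perm G P t σ n i (σ.symm b)
    rw [Equiv.apply_symm_apply] at h1
    rw [h1]
    apply h.sPQ n hty i
    rw [mem_union, ← hσ.Q, ← hσ.P2, Equiv.apply_symm_apply, ← mem_union]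
    exact hb
  · intro n hty b hb
    have h1 := sg_perm G P t σ n (σ.symm b)
    rw [Equiv.apply_symm_apply] at h1
    rw [h1]
    apply h.gs n hty
    rw [← hP1, Equiv.apply_symm_apply]
    exact hb
  · intro n hty
    rw [sum_perm σ _ hP1]
    rw [sum_congr rfl (fun b _ => sg_perm G P t σ n b)]
    exact h.sm1 n hty
  · intro n hty i
    rw [sum_perm σ _ hσ.P2]
    rw [sum_congr rfl (fun b _ => sgp_perm G P t σ n i b)]
    exact h.sm2 n hty i
  · intro n hty i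
    rw [sum_perm σ _ (hσ.Q _)]
    rw [sum_congr rfl (fun b _ => sgp_perm G P t σ n i b)]
    exact h.smQ n hty i
  · intro n hty β
    rw [sum_perm σ _ hP1]
    rw [sum_congr rfl (fun b _ => need_perm G P t σ n β b)]
    exact h.tot n hty β
  · intro n hty j
    refine (h.oY n hty j).trans ?_
    apply Nat.mul_le_mul_left
    rw [← card_image_of_injective _ σ.injective]
    apply card_le_card
    intro b hb
    rw [mem_image] at hb
    obtain ⟨a, ha, rfl⟩ := hb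
    rw [mem_filter] at ha ⊢
    refine ⟨(hσ.Q _ _).2 ha.1, ?_⟩
    rw [sgp_perm]
    exact ha.2
  · intro z hz n β hrg
    rw [need_perm]
    exact h.adj z hz n β hrg

end inv

end Pool.Agent.Work.MP_db9399_da.helper82
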